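import Mathlib
import Pool.Agent.V11283.Heis.Grass

/-!
# MP_080eaf: disjoint closed subsets of the Grassmannian with dependent norms

The definitions used in the statement are in `Pool.Agent.V11283.Heis.Stmt` and
`Pool.Agent.V11283.Heis.Grass`.
-/

namespace Pool.Agent.Results.MP_080eaf_nt.DisjointNotIndependent

open Pool.Agent.V11283.Heis.St

/-- For every prime `p`, every `d ≥ 1` and every nontrivial smooth character `ψ` there are
nonempty, closed, disjoint subsets `I₁, I₂` of the Grassmannian such that `‖·‖_{I₁}` and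
`‖·‖_{I₂}` are (finite) norms, both dominate every invariant seminorm, and both dominate one and
the same nonzero seminorm. -/
theorem result (p : ℕ) [Fact p.Prime] (d : ℕ) (hd : 1 ≤ d) (ψ : AddChar ℚ_[p] ℂ_[p])
    (hψ : IsOpen {t : ℚ_[p] | ψ t = 1}) (hψ1 : ψ ≠ 1) :
    ∃ I₁ I₂ : Set (Gr p d), I₁.Nonempty ∧ I₂.Nonempty ∧ IsClosed I₁ ∧ IsClosed I₂ ∧
      Disjoint I₁ I₂ ∧ (∀ f, BddAbove (ValsOn ψ hψ I₁ f)) ∧ (∀ f, BddAbove (ValsOn ψ hψ I₂ f)) ∧
      IsNorm (normOn ψ hψ I₁) ∧ IsNorm (normOn ψ hψ I₂) ∧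
      (∀ N : S p d → ℝ, IsSeminorm N → Invariant ψ hψ N →
        Dominates (normOn ψ hψ I₁) N ∧ Dominates (normOn ψ hψ I₂) N) ∧
      ∃ M : S p d → ℝ, IsSeminorm M ∧ (∃ f, M f ≠ 0) ∧
        Dominates (normOn ψ hψ I₁) M ∧ Dominates (normOn ψ hψ I₂) M := by
  obtain ⟨I₁, I₂, h1, h2, h3, h4, h5, h6, h7, h8, h9, h10⟩ := disjoint_main hd ψ hψ hψ1
  refine ⟨I₁, I₂, h1, h2, h3, h4, h5, h6, h7, h8, h9, h10, sup, ?_, ?_, ?_⟩
  · exact (isNorm_of Pool.Agent.V11283.Heis.supNorm_isNANorm).toIsSeminorm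
  · refine ⟨one, ?_⟩
    have h : sup (one : S p d) = 1 := Pool.Agent.V11283.Heis.supNorm_v0
    rw [h]
    exact one_ne_zero
  · exact h10 sup (isNorm_of Pool.Agent.V11283.Heis.supNorm_isNANorm).toIsSeminorm
      (fun w t f => sup_rho hψ1 w t f)

end Pool.Agent.Results.MP_080eaf_nt.DisjointNotIndependent
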